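import Pool.Agent.Y382.NCH.Stm

/-!
# Project NCH (helper382): counting symbols (helper484)
-/

set_option autoImplicit false

namespace Pool.Agent.Y484.NCH

open Pool.Agent.Y382.NCH

universe u

open Classical in
/-- the symbols of a near chain -/
theorem near_symb {G : Type u} [Group G] {a b : G} (hab : a ≠ b) {θ : Equiv.Perm G} {g : G}
    (hg : g * θ g = a) (hF : Function.Bijective (fun x : G => if x = g then b else x * θ x)) :
    (∀ x, x * θ x ≠ b) ∧ (∀ s, s ≠ b → ∃ x, x ≠ g ∧ x * θ x = s ∧
      ∀ y, y * θ y = s → y = g ∨ y = x) := by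
  have hFg : (fun x : G => if x = g then b else x * θ x) g = b := if_pos rfl
  have hFx : ∀ x, x ≠ g → (fun x : G => if x = g then b else x * θ x) x = x * θ x :=
    fun x hx => if_neg hx
  constructor
  · intro x hx
    have h1 : x ≠ g := by
      intro h
      rw [h, hg] at hx
      exact hab hx
    apply h1
    apply hF.1
    rw [hFg, hFx x h1, hx]
  · intro s hs
    obtain ⟨x, hx⟩ := hF.2 s
    have h1 : x ≠ g := by
      intro h
      rw [h, hFg] at hx
      exact hs hx.symm
    rw [hFx x h1] at hx
    refine ⟨x, h1, hx, fun y hy => ?_⟩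
    by_cases h2 : y = g
    · exact Or.inl h2
    · right
      apply hF.1
      rw [hFx y h2, hFx x h1, hy, hx]

theorem t_CNT : S_CNT.{u} := by
  classical
  intro G _ _ a b hab
  constructor
  · rintro ⟨θ, g, hg, hF⟩
    obtain ⟨h1, h2⟩ := near_symb hab hg (by
      refine ⟨fun x y h => hF.1 ?_, fun s => ?_⟩
      · simp only at h ⊢
        split_ifs at h ⊢ <;> exact h
      · obtain ⟨x, hx⟩ := hF.2 s
        refine ⟨x, ?_⟩
        simp only at hx ⊢
        split_ifs at hx ⊢ <;> exact hx)
    refine ⟨θ, fun s => ?_⟩
    by_cases hsb : s = b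
    · rw [if_pos hsb, Set.ncard_eq_zero]
      ext x
      simp only [Set.mem_setOf_eq, Set.mem_empty_iff_false, iff_false]
      rw [hsb]
      exact h1 x
    · rw [if_neg hsb]
      obtain ⟨x, hxg, hxs, hx⟩ := h2 s hsb
      by_cases hsa : s = a
      · rw [if_pos hsa]
        have h3 : {x : G | x * θ x = s} = {g, x} := by
          ext y
          simp only [Set.mem_setOf_eq, Set.mem_insert_iff, Set.mem_singleton_iff]
          constructor
          · exact hx y
          · rintro (h | h)
            · rw [h, hg, hsa]
            · rw [h, hxs]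
        rw [h3, Set.ncard_pair (Ne.symm hxg)]
      · rw [if_neg hsa]
        have h3 : {x : G | x * θ x = s} = {x} := by
          ext y
          simp only [Set.mem_setOf_eq, Set.mem_singleton_iff]
          constructor
          · intro hy
            rcases hx y hy with h | h
            · exfalso
              rw [h, hg] at hy
              exact hsa hy.symm
            · exact h
          · intro h
            rw [h, hxs]
        rw [h3, Set.ncard_singleton]
  · rintro ⟨θ, hθ⟩
    have ha := hθ a
    rw [if_neg hab, if_pos rfl, Set.ncard_eq_two] at ha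
    obtain ⟨g, x1, hgx, hset⟩ := ha
    have hg : g * θ g = a := by
      have : g ∈ {x : G | x * θ x = a} := by rw [hset]; simp
      exact this
    have hx1 : x1 * θ x1 = a := by
      have : x1 ∈ {x : G | x * θ x = a} := by rw [hset]; simp
      exact this
    refine ⟨θ, g, hg, ?_⟩
    have hsurj : Function.Surjective (fun x : G => if x = g then b else x * θ x) := by
      intro s
      by_cases hsb : s = b
      · exact ⟨g, by simp [hsb]⟩
      · by_cases hsa : s = a
        · exact ⟨x1, by simp [Ne.symm hgx, hx1, hsa]⟩
        · have hs := hθ s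
          rw [if_neg hsb, if_neg hsa, Set.ncard_eq_one] at hs
          obtain ⟨x0, hx0⟩ := hs
          have h1 : x0 * θ x0 = s := by
            have : x0 ∈ {x : G | x * θ x = s} := by rw [hx0]; simp
            exact this
          have h2 : x0 ≠ g := by
            intro h
            rw [h, hg] at h1
            exact hsa h1.symm
          exact ⟨x0, by simp [h2, h1]⟩
    refine ⟨fun x y h => Finite.injective_iff_surjective.2 hsurj ?_, fun s => ?_⟩
    · simp only at h ⊢
      split_ifs at h ⊢ <;> exact h
    · obtain ⟨x, hx⟩ := hsurj s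
      refine ⟨x, ?_⟩
      simp only at hx ⊢
      split_ifs at hx ⊢ <;> exact hx

theorem t_TRV : S_TRV.{u} := by
  classical
  intro G _ _
  constructor
  · rintro ⟨θ, g, hg, hF⟩
    refine ⟨θ, ?_⟩
    have h1 : (fun x : G => x * θ x) = fun x : G => if x = g then 1 else x * θ x := by
      funext x
      by_cases hx : x = g
      · rw [if_pos hx, hx, hg]
      · rw [if_neg hx]
    rw [h1]
    refine ⟨fun x y h => hF.1 ?_, fun s => ?_⟩
    · simp only at h ⊢
      split_ifs at h ⊢ <;> exact h
    · obtain ⟨x, hx⟩ := hF.2 s
      refine ⟨x, ?_⟩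
      simp only at hx ⊢
      split_ifs at hx ⊢ <;> exact hx
  · rintro ⟨θ, hF⟩
    obtain ⟨g, hg⟩ := hF.2 1
    have hg' : g * θ g = 1 := hg
    refine ⟨θ, g, hg', ?_⟩
    have h1 : ∀ x : G, x * θ x = if x = g then 1 else x * θ x := by
      intro x
      by_cases hx : x = g
      · rw [if_pos hx, hx, hg']
      · rw [if_neg hx]
    refine ⟨fun x y h => hF.1 ?_, fun s => ?_⟩
    · change x * θ x = y * θ y
      rw [h1 x, h1 y]
      simp only at h
      split_ifs at h ⊢ <;> exact h
    · obtain ⟨x, hx⟩ := hF.2 s
      refine ⟨x, ?_⟩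
      have hx' : x * θ x = s := hx
      rw [h1 x] at hx'
      simp only
      split_ifs at hx' ⊢ <;> exact hx'

theorem t_RNK : S_RNK.{u} := by
  classical
  intro G _ _
  constructor
  · rintro ⟨θ, hθ⟩
    set f : G → G := fun x => x * θ x with hf
    have hcompl : ((Set.range f)ᶜ).ncard = 1 := by
      rw [Set.ncard_compl, hθ]
      have : 0 < Nat.card G := Nat.card_pos
      omega
    obtain ⟨b, hb⟩ := Set.ncard_eq_one.1 hcompl
    have hbr : b ∉ Set.range f := by
      have : b ∈ (Set.range f)ᶜ := by rw [hb]; rfl
      exact this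
    have hbr' : ∀ s, s ≠ b → s ∈ Set.range f := by
      intro s hs
      by_contra hcon
      have : s ∈ (Set.range f)ᶜ := hcon
      rw [hb] at this
      exact hs this
    obtain ⟨x1, x2, hne, heq⟩ : ∃ x1 x2, x1 ≠ x2 ∧ f x1 = f x2 := by
      by_contra hcon
      push Not at hcon
      have hinj : Function.Injective f := fun u v h => by
        by_contra huv
        exact hcon u v huv h
      exact hbr (Finite.surjective_of_injective hinj b)
    refine ⟨f x1, b, fun h => hbr ⟨x1, h⟩, θ, x1, rfl, ?_⟩
    have hsurj : Function.Surjective (fun x : G => if x = x1 then b else x * θ x) := by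
      intro s
      by_cases hsb : s = b
      · exact ⟨x1, by simp [hsb]⟩
      · obtain ⟨x, hx⟩ := hbr' s hsb
        by_cases hx1 : x = x1
        · refine ⟨x2, ?_⟩
          have h1 : x2 * θ x2 = s := by
            rw [← hx, hx1, heq]
          simp [Ne.symm hne, h1]
        · refine ⟨x, ?_⟩
          have h1 : x * θ x = s := hx
          simp [hx1, h1]
    refine ⟨fun x y h => Finite.injective_iff_surjective.2 hsurj ?_, fun s => ?_⟩
    · simp only at h ⊢
      split_ifs at h ⊢ <;> exact h
    · obtain ⟨x, hx⟩ := hsurj s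
      refine ⟨x, ?_⟩
      simp only at hx ⊢
      split_ifs at hx ⊢ <;> exact hx
  · rintro ⟨a, b, hab, θ, g, hg, hF⟩
    obtain ⟨h1, h2⟩ := near_symb hab hg (by
      refine ⟨fun x y h => hF.1 ?_, fun s => ?_⟩
      · simp only at h ⊢
        split_ifs at h ⊢ <;> exact h
      · obtain ⟨x, hx⟩ := hF.2 s
        refine ⟨x, ?_⟩
        simp only at hx ⊢
        split_ifs at hx ⊢ <;> exact hx)
    refine ⟨θ, ?_⟩
    have h3 : (Set.range fun x : G => x * θ x) = {b}ᶜ := by
      ext s
      simp only [Set.mem_range, Set.mem_compl_iff, Set.mem_singleton_iff]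
      constructor
      · rintro ⟨x, hx⟩ h
        exact h1 x (hx.trans h)
      · intro h
        obtain ⟨x, -, hx, -⟩ := h2 s h
        exact ⟨x, hx⟩
    rw [h3, Set.ncard_compl, Set.ncard_singleton]

end Pool.Agent.Y484.NCH
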